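import Pool.Agent.H705.GB.Stm

/-! # GB, PRD: the density of the `y` such that no prime of `S` divides `2 y + 1` -/

set_option autoImplicit false

namespace Pool.Agent.H56.GB.PRD

open Finset
open Pool.Agent.H705.TR (PrimeIn Model un P_GEN P_CRT P_UN P_MOD)
open Pool.Agent.H705.GB

/-- the condition at one prime -/
def Q (l r : ℕ) : Prop := ¬ l ∣ 2 * r + 1

theorem Q_mod (l y : ℕ) : Q l (y % l) ↔ Q l y := by
  unfold Q
  rw [(((Nat.mod_modEq y l).mul_left 2).add_right 1).dvd_iff (dvd_refl l)]

theorem un_congr (m : ℕ) (A B : ℕ → Prop) (h : ∀ y, A y ↔ B y) : un m A = un m B := by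
  have : A = B := funext fun y => propext (h y)
  rw [this]

theorem un_odd {l : ℕ} (hp : l.Prime) (h2 : l ≠ 2) : un l (Q l) = 1 - 1 / (l : ℝ) := by
  classical
  have hodd : l % 2 = 1 := hp.eq_two_or_odd.resolve_left h2
  have hl1 : 1 < l := hp.one_lt
  have e : (range l).filter (fun y => ¬ Q l y) = {(l - 1) / 2} := by
    ext y
    simp only [mem_filter, mem_range, mem_singleton, Q, not_not]
    constructor
    · rintro ⟨hy, k, hk⟩
      have hk1 : k = 1 := by
        have h0 : k ≠ 0 := by
          rintro rfl
          omega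
        have h3 : k < 2 := by
          by_contra h
          have := Nat.mul_le_mul_left l (not_lt.1 h)
          omega
        omega
      subst hk1
      omega
    · rintro rfl
      refine ⟨by omega, ?_⟩
      have : 2 * ((l - 1) / 2) + 1 = l := by omega
      rw [this]
  have hc1 : ((range l).filter (fun y => ¬ Q l y)).card = 1 := by
    rw [e, card_singleton]
  have hsum := Finset.card_filter_add_card_filter_not (s := range l) (Q l)
  rw [card_range, hc1] at hsum
  have hc : ((range l).filter (Q l)).card = l - 1 := by omega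
  have e3 : (@Finset.filter ℕ (Q l) (fun a => Classical.propDecidable (Q l a)) (range l)).card =
      l - 1 := by
    rw [← hc]
  unfold un
  rw [e3]
  have hl0 : (l : ℝ) ≠ 0 := by
    have := hp.pos
    positivity
  rw [Nat.cast_sub hl1.le]
  field_simp
  norm_num

theorem T_PRD (hCRT : P_CRT) : P_PRD := by
  intro k S hk hS
  have h := hCRT k S Q hk fun l hl => ⟨(hS l hl).1, (hS l hl).2.2⟩
  have e : un k (fun y => ∀ l ∈ S, Q l (y % l)) = un k (fun y => ∀ l ∈ S, ¬ l ∣ 2 * y + 1) := by
    apply un_congr
    intro y
    constructor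
    · intro h l hl
      exact (Q_mod l y).1 (h l hl)
    · intro h l hl
      exact (Q_mod l y).2 (h l hl)
  rw [← e, h]
  exact Finset.prod_congr rfl fun l hl => un_odd (hS l hl).1 (hS l hl).2.1

end Pool.Agent.H56.GB.PRD
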